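import Pool.Agent.BlindFSA.Word

/-!
A two-way infinite lattice path with arbitrarily long straight horizontal runs of both
orientations on both sides of the origin.
-/

namespace Pool.Agent.BlindFSA

open Pool.Agent.BlindPath

/-- The successor of a vertex on the path in the upper half plane. -/
def nxt (v : V) : V :=
  if v.2 % 2 = 0 then (if v.1 < v.2 then (v.1 + 1, v.2) else (v.1, v.2 + 1))
  else (if -v.2 < v.1 then (v.1 - 1, v.2) else (v.1, v.2 + 1))

/-- The path in the upper half plane: the row `y ≥ 1` has `2 y` vertices, alternately from left to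
right and from right to left. -/
def up : ℕ → V
  | 0 => (0, 1)
  | n + 1 => nxt (up n)

/-- The number of vertices before the vertex in its row. -/
def col (v : V) : ℤ := if v.2 % 2 = 0 then v.1 + v.2 - 1 else v.2 - 1 - v.1

lemma up_inv (n : ℕ) : 1 ≤ (up n).2 ∧ 0 ≤ col (up n) ∧ col (up n) < 2 * (up n).2 ∧
    (n : ℤ) = (up n).2 * ((up n).2 - 1) + col (up n) := by
  induction n with
  | zero => simp [up, col]
  | succ n ih =>
    obtain ⟨h1, h2, h3, h4⟩ := ih
    simp only [up]
    generalize up n = v at *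
    obtain ⟨x, y⟩ := v
    push_cast
    unfold nxt col at *
    simp only at *
    by_cases hy : y % 2 = 0
    · rw [if_pos hy] at h2 h3 h4
      rw [if_pos hy]
      by_cases hx : x < y
      · rw [if_pos hx]
        simp only
        rw [if_pos hy]
        refine ⟨h1, by omega, by omega, by rw [h4]; ring⟩
      · rw [if_neg hx]
        simp only
        have hxy : x = y := by omega
        subst hxy
        rw [if_neg (by omega)]
        refine ⟨by omega, by omega, by omega, by rw [h4]; ring⟩
    · rw [if_neg hy] at h2 h3 h4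
      rw [if_neg hy]
      by_cases hx : -y < x
      · rw [if_pos hx]
        simp only
        rw [if_neg hy]
        refine ⟨h1, by omega, by omega, by rw [h4]; ring⟩
      · rw [if_neg hx]
        simp only
        have hxy : x = -y := by omega
        subst hxy
        rw [if_pos (by omega)]
        refine ⟨by omega, by omega, by omega, by rw [h4]; ring⟩

lemma up_inj {m n : ℕ} (h : up m = up n) : m = n := by
  have h1 := (up_inv m).2.2.2
  have h2 := (up_inv n).2.2.2
  rw [h] at h1
  have : (m : ℤ) = n := h1.trans h2.symm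
  exact_mod_cast this

lemma up_step (n : ℕ) : ∃ c : Dir, up (n + 1) = up n + c.vec := by
  simp only [up]
  generalize up n = v
  obtain ⟨x, y⟩ := v
  unfold nxt
  simp only
  split_ifs
  · exact ⟨.E, by simp [Dir.vec]⟩
  · exact ⟨.N, by simp [Dir.vec]⟩
  · exact ⟨.W, by simp [Dir.vec, sub_eq_add_neg]⟩
  · exact ⟨.N, by simp [Dir.vec]⟩

/-- In the row `y` the path is straight. -/
lemma up_run {y : ℤ} (hy : 1 ≤ y) {n : ℕ} (h1 : y * (y - 1) ≤ n) (h2 : (n : ℤ) < y * (y + 1) - 1) :
    up (n + 1) = up n + ((if y % 2 = 0 then 1 else -1), 0) := by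
  obtain ⟨h3, h4, h5, h6⟩ := up_inv n
  have h7 : (up n).2 = y := by
    rcases lt_trichotomy (up n).2 y with h | h | h
    · exfalso
      have : (up n).2 + 1 ≤ y := by omega
      nlinarith
    · exact h
    · exfalso
      have : y + 1 ≤ (up n).2 := by omega
      nlinarith
  simp only [up]
  generalize up n = v at *
  obtain ⟨x, y'⟩ := v
  simp only at h7
  subst h7
  unfold nxt
  unfold col at h4 h5 h6
  simp only at *
  have h8 : y' * (y' + 1) = y' * (y' - 1) + 2 * y' := by ring
  by_cases hy' : y' % 2 = 0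
  · rw [if_pos hy'] at h4 h5 h6
    rw [if_pos hy', if_pos hy', if_pos (by omega)]
    simp
  · rw [if_neg hy'] at h4 h5 h6
    rw [if_neg hy', if_neg hy', if_pos (by omega)]
    simp [sub_eq_add_neg]

/-- The two-way infinite path. -/
def snake : ℤ → V
  | Int.ofNat n => up n
  | Int.negSucc n => (-(up n).1, 1 - (up n).2)

lemma snake_nonneg {i : ℤ} (hi : 0 ≤ i) : snake i = up i.toNat := by
  obtain ⟨n, rfl⟩ := Int.eq_ofNat_of_zero_le hi
  rfl

lemma snake_neg {i : ℤ} (hi : i < 0) :
    snake i = (-(up (-i - 1).toNat).1, 1 - (up (-i - 1).toNat).2) := by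
  obtain ⟨n, rfl⟩ := Int.eq_negSucc_of_lt_zero hi
  have : (-(Int.negSucc n) - 1).toNat = n := by
    rw [Int.negSucc_eq]
    omega
  rw [this]
  rfl

lemma snake_inj : Function.Injective snake := by
  intro i j h
  rcases lt_or_ge i 0 with hi | hi <;> rcases lt_or_ge j 0 with hj | hj
  · rw [snake_neg hi, snake_neg hj] at h
    have h1 : up (-i - 1).toNat = up (-j - 1).toNat := by
      ext
      · have := congrArg Prod.fst h
        simpa using this
      · have := congrArg Prod.snd h
        simpa using this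
    have := up_inj h1
    omega
  · rw [snake_neg hi, snake_nonneg hj] at h
    have h1 := (up_inv (-i - 1).toNat).1
    have h2 := (up_inv j.toNat).1
    have h3 := congrArg Prod.snd h
    simp only at h3
    omega
  · rw [snake_nonneg hi, snake_neg hj] at h
    have h1 := (up_inv i.toNat).1
    have h2 := (up_inv (-j - 1).toNat).1
    have h3 := congrArg Prod.snd h
    simp only at h3
    omega
  · rw [snake_nonneg hi, snake_nonneg hj] at h
    have := up_inj h
    omega

lemma snake_succ_nonneg {i : ℤ} (hi : 0 ≤ i) :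
    snake (i + 1) - snake i = up (i.toNat + 1) - up i.toNat := by
  rw [snake_nonneg hi, snake_nonneg (by omega)]
  congr 2
  omega

lemma snake_succ_neg {i : ℤ} (hi : i < -1) :
    snake (i + 1) - snake i = up ((-i - 2).toNat + 1) - up (-i - 2).toNat := by
  rw [snake_neg (show i < 0 by omega), snake_neg (show i + 1 < 0 by omega)]
  have h1 : (-(i + 1) - 1).toNat = (-i - 2).toNat := by omega
  have h2 : (-i - 1).toNat = (-i - 2).toNat + 1 := by omega
  rw [h1, h2]
  ext
  · simp only [Prod.fst_sub]
    ring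
  · simp only [Prod.snd_sub]
    ring

lemma snake_step (i : ℤ) : ∃ c : Dir, snake (i + 1) = snake i + c.vec := by
  rcases lt_or_ge i 0 with hi | hi
  · rcases eq_or_lt_of_le (show i ≤ -1 by omega) with h | h
    · subst h
      refine ⟨.N, ?_⟩
      rw [snake_neg (show (-1 : ℤ) < 0 by norm_num)]
      rw [show (-1 : ℤ) + 1 = 0 by norm_num, snake_nonneg le_rfl]
      simp [up, Dir.vec]
    · obtain ⟨c, hc⟩ := up_step (-i - 2).toNat
      refine ⟨c, ?_⟩
      have := snake_succ_neg h
      rw [hc, add_sub_cancel_left] at this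
      rw [← this]
      abel
  · obtain ⟨c, hc⟩ := up_step i.toNat
    refine ⟨c, ?_⟩
    have := snake_succ_nonneg hi
    rw [hc, add_sub_cancel_left] at this
    rw [← this]
    abel

lemma exists_row {s : ℤ} (hs : s = 1 ∨ s = -1) (N : ℕ) :
    ∃ y : ℤ, 1 ≤ y ∧ 2 * (N : ℤ) ≤ 2 * y - 1 ∧ (N : ℤ) ≤ y * (y - 1) ∧
      s = (if y % 2 = 0 then 1 else -1) := by
  rcases hs with rfl | rfl
  · refine ⟨2 * N + 2, by omega, by omega, by nlinarith, by rw [if_pos (by omega)]⟩
  · refine ⟨2 * N + 3, by omega, by omega, by nlinarith, by rw [if_neg (by omega)]⟩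

theorem snake_snake : Snake snake := by
  constructor
  · intro s hs N
    obtain ⟨y, h1, h2, h3, h4⟩ := exists_row hs N
    refine ⟨y * (y - 1), h3, fun i hi hi' => ?_⟩
    have hi0 : 0 ≤ i := by omega
    have h5 := snake_succ_nonneg hi0
    have h6 : ((i.toNat : ℕ) : ℤ) = i := Int.toNat_of_nonneg hi0
    have h8 : y * (y + 1) = y * (y - 1) + 2 * y := by ring
    have h7 := up_run h1 (n := i.toNat) (by omega) (by omega)
    rw [h7, add_sub_cancel_left, ← h4] at h5
    rw [← h5]
    abel
  · intro s hs N
    obtain ⟨y, h1, h2, h3, h4⟩ := exists_row hs N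
    refine ⟨-(y * (y - 1)) - 2 * y, by omega, fun i hi hi' => ?_⟩
    have hi0 : i < -1 := by omega
    have h5 := snake_succ_neg hi0
    have h6 : (((-i - 2).toNat : ℕ) : ℤ) = -i - 2 := Int.toNat_of_nonneg (by omega)
    have h8 : y * (y + 1) = y * (y - 1) + 2 * y := by ring
    have h7 := up_run h1 (n := (-i - 2).toNat) (by omega) (by omega)
    rw [h7, add_sub_cancel_left, ← h4] at h5
    rw [← h5]
    abel

/-- The board whose only edges are those of the path `γ`. -/
def pathBoard (γ : ℤ → V) (h : Function.Injective γ) : SimpleGraph V where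
  Adj u v := ∃ i, (u = γ i ∧ v = γ (i + 1)) ∨ (v = γ i ∧ u = γ (i + 1))
  symm := ⟨by
    rintro u v ⟨i, hi⟩
    exact ⟨i, hi.symm⟩⟩
  loopless := ⟨by
    rintro u ⟨i, hi | hi⟩ <;>
    · have := h (hi.1.symm.trans hi.2)
      omega⟩

lemma pathBoard_board {γ : ℤ → V} (h : Function.Injective γ)
    (hs : ∀ i, ∃ c : Dir, γ (i + 1) = γ i + c.vec) : Board (pathBoard γ h) := by
  rintro u v ⟨i, ⟨rfl, rfl⟩ | ⟨rfl, rfl⟩⟩
  · exact hs i
  · obtain ⟨c, hc⟩ := hs i
    rw [hc]
    cases c
    · exact ⟨.W, by ext <;> simp [Dir.vec]⟩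
    · exact ⟨.S, by ext <;> simp [Dir.vec]⟩
    · exact ⟨.E, by ext <;> simp [Dir.vec]⟩
    · exact ⟨.N, by ext <;> simp [Dir.vec]⟩

lemma pathBoard_isPath {γ : ℤ → V} (h : Function.Injective γ) :
    IsPath (pathBoard γ h) (γ 0) Set.univ γ where
  interval := Set.ordConnected_univ
  zero_mem := Set.mem_univ _
  start := rfl
  inj := h.injOn
  comp := by
    intro v
    constructor
    · rintro ⟨w⟩
      have key : ∀ u v : V, (pathBoard γ h).Walk u v → (∃ i, γ i = u) → ∃ i, γ i = v := by
        intro u v w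
        induction w with
        | nil => exact id
        | cons hadj _ ih =>
          intro _
          apply ih
          obtain ⟨i, hi | hi⟩ := hadj
          · exact ⟨i + 1, hi.2.symm⟩
          · exact ⟨i, hi.1.symm⟩
      obtain ⟨i, hi⟩ := key _ _ w ⟨0, rfl⟩
      exact ⟨i, Set.mem_univ _, hi⟩
    · rintro ⟨i, -, rfl⟩
      have hadj : ∀ j, (pathBoard γ h).Adj (γ j) (γ (j + 1)) := fun j => ⟨j, Or.inl ⟨rfl, rfl⟩⟩
      induction i using Int.induction_on with
      | zero => exact SimpleGraph.Reachable.refl _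
      | succ n ih => exact ih.trans (hadj _).reachable
      | pred n ih =>
        refine ih.trans ?_
        have := (hadj (-(n : ℤ) - 1)).symm
        rw [sub_add_cancel] at this
        exact this.reachable
  adj := by
    intro i _ j _
    constructor
    · rintro ⟨k, ⟨h1, h2⟩ | ⟨h1, h2⟩⟩
      · left
        rw [h h1, h h2]
      · right
        rw [h h1, h h2]
    · rintro (rfl | rfl)
      · exact ⟨i, Or.inl ⟨rfl, rfl⟩⟩
      · exact ⟨j, Or.inr ⟨rfl, rfl⟩⟩

end Pool.Agent.BlindFSA
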