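import Pool.Agent.BlindFSA.Snake

/-!
A lower bound for the time which an algorithm needs on lattice paths: the boustrophedon paths of
all widths.
-/

namespace Pool.Agent.BlindFSA

open Pool.Agent.BlindPath

/-! ### The reflected walks -/

/-- One step of the walk reflected in `[0, L]`. -/
def rf (L : ℤ) : Dir → ℤ → ℤ
  | .E, x => min (x + 1) L
  | .N, x => x
  | .W, x => max (x - 1) 0
  | .S, x => x

/-- `1` if the letter is a horizontal letter which is blocked at `x`, otherwise `0`. -/
def bl (L : ℤ) : Dir → ℤ → ℤ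
  | .E, x => if x = L then 1 else 0
  | .N, _ => 0
  | .W, x => if x = 0 then 1 else 0
  | .S, _ => 0

/-- The walk reflected in `[0, L]`. -/
def rw' (L : ℤ) (A : ℕ → Dir) : ℕ → ℤ
  | 0 => 0
  | n + 1 => rf L (A n) (rw' L A n)

/-- The number of blocked horizontal letters. -/
def bk (L : ℤ) (A : ℕ → Dir) : ℕ → ℤ
  | 0 => 0
  | n + 1 => bk L A n + bl L (A n) (rw' L A n)

/-- `1` if `x` is the end of `[0, L]` opposite to the last visited one (`g` crossings so far). -/
def inc (L x g : ℤ) : ℤ := if (x = L ∧ g % 2 = 0) ∨ (x = 0 ∧ g % 2 = 1) then 1 else 0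

/-- The number of crossings of `[0, L]`. -/
def cr (L : ℤ) (A : ℕ → Dir) : ℕ → ℤ
  | 0 => 0
  | n + 1 => cr L A n + inc L (rf L (A n) (rw' L A n)) (cr L A n)

lemma cr_nonneg (L : ℤ) (A : ℕ → Dir) (n : ℕ) : 0 ≤ cr L A n := by
  induction n with
  | zero => simp [cr]
  | succ n ih =>
    simp only [cr, inc]
    split_ifs <;> omega

lemma cr_mono (L : ℤ) (A : ℕ → Dir) : Monotone (cr L A) := by
  refine monotone_nat_of_le_succ fun n => ?_
  simp only [cr, inc]
  split_ifs <;> omega

lemma bl_nonneg (L : ℤ) (c : Dir) (x : ℤ) : 0 ≤ bl L c x := by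
  cases c <;> simp only [bl] <;> (try split_ifs) <;> omega

lemma bl_le (L : ℤ) (c : Dir) (x : ℤ) : bl L c x ≤ 1 := by
  cases c <;> simp only [bl] <;> (try split_ifs) <;> omega

lemma bk_nonneg (L : ℤ) (A : ℕ → Dir) (n : ℕ) : 0 ≤ bk L A n := by
  induction n with
  | zero => simp [bk]
  | succ n ih =>
    have := bl_nonneg L (A n) (rw' L A n)
    simp only [bk]
    omega

lemma bk_le (L : ℤ) (A : ℕ → Dir) (n : ℕ) : bk L A n ≤ n := by
  induction n with
  | zero => simp [bk]
  | succ n ih =>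
    have := bl_le L (A n) (rw' L A n)
    simp only [bk]
    push_cast
    omega

/-- The coupling of the widths `L` and `L + 1`. -/
lemma coupling {L : ℤ} (hL : 0 ≤ L) (A : ℕ → Dir) (n : ℕ) :
    0 ≤ rw' L A n ∧ rw' L A n ≤ L ∧ rw' (L + 1) A n = rw' L A n + cr (L + 1) A n % 2 ∧
    bk L A n = bk (L + 1) A n + cr (L + 1) A n := by
  induction n with
  | zero => simp [rw', bk, cr, hL]
  | succ n ih =>
    obtain ⟨h1, h2, h3, h4⟩ := ih
    simp only [rw', bk, cr]
    rw [h3, h4]
    clear h3 h4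
    revert h1 h2
    generalize cr (L + 1) A n = g
    generalize rw' L A n = x
    generalize bk (L + 1) A n = b'
    generalize A n = c
    intro h1 h2
    cases c <;> simp only [rf, bl, inc] <;> refine ⟨?_, ?_, ?_, ?_⟩ <;>
      first
      | omega
      | (split_ifs <;> omega)

lemma sum_cr (A : ℕ → Dir) (n K : ℕ) :
    bk 0 A n = bk K A n + ∑ i ∈ Finset.range K, cr ((i : ℤ) + 1) A n := by
  induction K with
  | zero => simp
  | succ K ih =>
    rw [Finset.sum_range_succ, ih, (coupling (Int.natCast_nonneg K) A n).2.2.2]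
    push_cast
    ring

/-- The length of a word bounds the sum of the numbers of crossings of all widths. -/
lemma sum_cr_le (A : ℕ → Dir) (n K : ℕ) :
    ∑ i ∈ Finset.range K, cr ((i : ℤ) + 1) A n ≤ n := by
  have h1 := sum_cr A n K
  have h2 := bk_nonneg K A n
  have h3 := bk_le 0 A n
  omega

/-! ### The boustrophedon paths -/

/-- The boustrophedon path of width `L`: the rows are `[0, L]`, alternately from left to right and
from right to left. -/
def bst (L : ℤ) (i : ℤ) : V :=
  (if (i / (L + 1)) % 2 = 0 then i % (L + 1) else L - i % (L + 1), i / (L + 1))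

lemma bst_form {L : ℤ} (hL : 1 ≤ L) (i : ℤ) : ∃ r m : ℤ, 0 ≤ m ∧ m ≤ L ∧ i = (L + 1) * r + m ∧
    bst L i = (if r % 2 = 0 then m else L - m, r) := by
  refine ⟨i / (L + 1), i % (L + 1), Int.emod_nonneg _ (by omega), ?_, ?_, rfl⟩
  · have := Int.emod_lt_of_pos i (show 0 < L + 1 by omega)
    omega
  · exact (Int.mul_ediv_add_emod i (L + 1)).symm

lemma bst_eval {L : ℤ} {r m : ℤ} (h1 : 0 ≤ m) (h2 : m ≤ L) :
    bst L ((L + 1) * r + m) = (if r % 2 = 0 then m else L - m, r) := by
  have h3 : ((L + 1) * r + m) / (L + 1) = r := by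
    rw [Int.add_ediv_of_dvd_left (Dvd.intro _ rfl), Int.mul_ediv_cancel_left _ (by omega),
      Int.ediv_eq_zero_of_lt h1 (by omega), add_zero]
  have h4 : ((L + 1) * r + m) % (L + 1) = m := by
    rw [Int.add_emod, Int.mul_emod_right, zero_add, Int.emod_emod_of_dvd _ dvd_rfl,
      Int.emod_eq_of_lt h1 (by omega)]
  unfold bst
  rw [h3, h4]

lemma bst_inj {L : ℤ} (hL : 1 ≤ L) : Function.Injective (bst L) := by
  intro i j h
  obtain ⟨r, m, h1, h2, h3, h4⟩ := bst_form hL i
  obtain ⟨r', m', h1', h2', h3', h4'⟩ := bst_form hL j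
  rw [h4, h4'] at h
  have hr : r = r' := congrArg Prod.snd h
  subst hr
  have hm := congrArg Prod.fst h
  simp only at hm
  have : m = m' := by
    split_ifs at hm <;> omega
  rw [h3, h3', this]

/-- The next vertex. -/
lemma bst_succ {L : ℤ} (hL : 1 ≤ L) {r m : ℤ} (h1 : 0 ≤ m) (h2 : m ≤ L) :
    bst L ((L + 1) * r + m + 1) = bst L ((L + 1) * r + m) +
      (if m = L then (0, 1) else (if r % 2 = 0 then 1 else -1, 0)) := by
  by_cases hm : m = L
  · rw [if_pos hm, bst_eval h1 h2,
      show (L + 1) * r + m + 1 = (L + 1) * (r + 1) + 0 by rw [hm]; ring,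
      bst_eval le_rfl (by omega)]
    by_cases hr : r % 2 = 0
    · rw [if_pos hr, if_neg (by omega)]
      simp [hm]
    · rw [if_neg hr, if_pos (by omega)]
      simp [hm]
  · rw [if_neg hm, bst_eval h1 h2, add_assoc, bst_eval (by omega) (by omega)]
    by_cases hr : r % 2 = 0
    · rw [if_pos hr, if_pos hr, if_pos hr]
      simp
    · rw [if_neg hr, if_neg hr, if_neg hr]
      ext
      · simp only [Prod.fst_add]
        ring
      · simp

/-- The preceding vertex. -/
lemma bst_pred {L : ℤ} (hL : 1 ≤ L) {r m : ℤ} (h1 : 0 ≤ m) (h2 : m ≤ L) :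
    bst L ((L + 1) * r + m - 1) = bst L ((L + 1) * r + m) +
      (if m = 0 then (0, -1) else (if r % 2 = 0 then -1 else 1, 0)) := by
  by_cases hm : m = 0
  · rw [if_pos hm, bst_eval h1 h2,
      show (L + 1) * r + m - 1 = (L + 1) * (r - 1) + L by rw [hm]; ring,
      bst_eval (by omega) le_rfl]
    by_cases hr : r % 2 = 0
    · rw [if_pos hr, if_neg (by omega)]
      simp [hm, sub_eq_add_neg]
    · rw [if_neg hr, if_pos (by omega)]
      simp [hm, sub_eq_add_neg]
  · rw [if_neg hm, bst_eval h1 h2, add_sub_assoc, bst_eval (by omega) (by omega)]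
    by_cases hr : r % 2 = 0
    · rw [if_pos hr, if_pos hr, if_pos hr]
      simp [sub_eq_add_neg]
    · rw [if_neg hr, if_neg hr, if_neg hr]
      ext
      · simp only [Prod.fst_add]
        ring
      · simp

lemma bst_step {L : ℤ} (hL : 1 ≤ L) (i : ℤ) : ∃ c : Dir, bst L (i + 1) = bst L i + c.vec := by
  obtain ⟨r, m, h1, h2, h3, -⟩ := bst_form hL i
  have h := bst_succ hL (r := r) h1 h2
  rw [← h3] at h
  rw [h]
  by_cases hm : m = L
  · exact ⟨.N, by rw [if_pos hm]; rfl⟩
  · by_cases hr : r % 2 = 0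
    · exact ⟨.E, by rw [if_neg hm, if_pos hr]; rfl⟩
    · exact ⟨.W, by rw [if_neg hm, if_neg hr]; rfl⟩

/-- The step of the robot on the boustrophedon path. -/
lemma bst_stp {L : ℤ} (hL : 1 ≤ L) (c : Dir) (i : ℤ) :
    (bst L (stp Set.univ (bst L) c i)).1 = rf L c (bst L i).1 ∧
    ((bst L (stp Set.univ (bst L) c i)).2 ≤ (bst L i).2 ∨
      ((bst L (stp Set.univ (bst L) c i)).2 = (bst L i).2 + 1 ∧
        (((bst L i).2 % 2 = 0 ∧ (bst L i).1 = L) ∨ ((bst L i).2 % 2 = 1 ∧ (bst L i).1 = 0)))) := by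
  obtain ⟨r, m, h1, h2, h3, h4⟩ := bst_form hL i
  have hs := bst_succ hL (r := r) h1 h2
  have hp := bst_pred hL (r := r) h1 h2
  rw [← h3] at hs hp
  have hval : bst L (stp Set.univ (bst L) c i) =
      if bst L (i + 1) = bst L i + c.vec then bst L i + c.vec
      else if bst L (i - 1) = bst L i + c.vec then bst L i + c.vec else bst L i := by
    unfold stp
    simp only [Set.mem_univ, true_and]
    by_cases g1 : bst L (i + 1) = bst L i + c.vec
    · rw [if_pos g1, if_pos g1, g1]
    · rw [if_neg g1, if_neg g1]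
      by_cases g2 : bst L (i - 1) = bst L i + c.vec
      · rw [if_pos g2, if_pos g2, g2]
      · rw [if_neg g2, if_neg g2]
  rw [hval, hs, hp, h4]
  simp only [add_right_inj]
  clear hval hs hp h4 h3
  cases c <;> simp only [Dir.vec, rf, Prod.mk_add_mk, Prod.ext_iff] <;>
    split_ifs <;> simp_all <;> omega

/-- The robot on the boustrophedon path: its first coordinate is the reflected walk, and its row is
at most the number of crossings. -/
lemma bst_run {L : ℤ} (hL : 1 ≤ L) (A : ℕ → Dir) (n : ℕ) :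
    (bst L (wrun Set.univ (bst L) A 0 n 0)).1 = rw' L A n ∧
    (bst L (wrun Set.univ (bst L) A 0 n 0)).2 ≤ cr L A n := by
  induction n with
  | zero =>
    have := bst_eval (L := L) (r := 0) (m := 0) le_rfl (by omega)
    simp only [mul_zero, add_zero] at this
    simp [wrun, this, rw', cr]
  | succ n ih =>
    obtain ⟨h1, h2⟩ := ih
    simp only [wrun]
    obtain ⟨h3, h4⟩ := bst_stp hL (A (0 + n)) (wrun Set.univ (bst L) A 0 n 0)
    have hc := coupling (show 0 ≤ L - 1 by omega) A n
    rw [sub_add_cancel] at hc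
    obtain ⟨c1, c2, c3, -⟩ := hc
    have hmono := cr_mono L A (Nat.le_succ n)
    have hmono' : cr L A n ≤ cr L A (n + 1) := hmono
    refine ⟨?_, ?_⟩
    · rw [h3, h1, zero_add]
      rfl
    · rw [h1] at h4
      rcases h4 with h4 | ⟨h4, ⟨h5, h6⟩ | ⟨h5, h6⟩⟩ <;> omega

end Pool.Agent.BlindFSA
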