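import Pool.Agent.BlindFSA.Time

/-!
Boards whose component is a part of a given path, and the comparison of the robots on them.
-/

namespace Pool.Agent.BlindFSA

open Pool.Agent.BlindPath

/-- The board whose only edges are those of the part of the path `γ` with index set `I`. -/
def partBoard (γ : ℤ → V) (h : Function.Injective γ) (I : Set ℤ) : SimpleGraph V where
  Adj u v := ∃ i, i ∈ I ∧ i + 1 ∈ I ∧ ((u = γ i ∧ v = γ (i + 1)) ∨ (v = γ i ∧ u = γ (i + 1)))
  symm := ⟨by
    rintro u v ⟨i, h1, h2, hi⟩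
    exact ⟨i, h1, h2, hi.symm⟩⟩
  loopless := ⟨by
    rintro u ⟨i, -, -, hi | hi⟩ <;>
    · have := h (hi.1.symm.trans hi.2)
      omega⟩

lemma partBoard_board {γ : ℤ → V} (h : Function.Injective γ) (I : Set ℤ)
    (hs : ∀ i, ∃ c : Dir, γ (i + 1) = γ i + c.vec) : Board (partBoard γ h I) := by
  rintro u v ⟨i, -, -, hi⟩
  exact pathBoard_board h hs u v ⟨i, hi⟩

lemma partBoard_isPath {γ : ℤ → V} (h : Function.Injective γ) {I : Set ℤ} (hI : I.OrdConnected)
    (h0 : (0 : ℤ) ∈ I) : IsPath (partBoard γ h I) (γ 0) I γ where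
  interval := hI
  zero_mem := h0
  start := rfl
  inj := h.injOn
  comp := by
    intro v
    constructor
    · rintro ⟨w⟩
      have key : ∀ u v : V, (partBoard γ h I).Walk u v → (∃ i ∈ I, γ i = u) →
          ∃ i ∈ I, γ i = v := by
        intro u v w
        induction w with
        | nil => exact id
        | cons hadj _ ih =>
          intro _
          apply ih
          obtain ⟨i, h1, h2, hi | hi⟩ := hadj
          · exact ⟨i + 1, h2, hi.2.symm⟩
          · exact ⟨i, h1, hi.1.symm⟩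
      exact key _ _ w ⟨0, h0, rfl⟩
    · rintro ⟨i, hi, rfl⟩
      have hadj : ∀ j, j ∈ I → j + 1 ∈ I → (partBoard γ h I).Adj (γ j) (γ (j + 1)) :=
        fun j h1 h2 => ⟨j, h1, h2, Or.inl ⟨rfl, rfl⟩⟩
      have hpos : ∀ n : ℕ, (n : ℤ) ∈ I → (partBoard γ h I).Reachable (γ 0) (γ n) := by
        intro n
        induction n with
        | zero => intro _; exact SimpleGraph.Reachable.refl _
        | succ n ih =>
          intro hn
          push_cast at hn
          have hn' : (n : ℤ) ∈ I := hI.out h0 hn ⟨by omega, by omega⟩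
          exact (ih hn').trans (hadj _ hn' hn).reachable
      have hneg : ∀ n : ℕ, -(n : ℤ) ∈ I → (partBoard γ h I).Reachable (γ 0) (γ (-(n : ℤ))) := by
        intro n
        induction n with
        | zero => intro _; exact SimpleGraph.Reachable.refl _
        | succ n ih =>
          intro hn
          have hn' : -(n : ℤ) ∈ I := hI.out hn h0 ⟨by push_cast; omega, by omega⟩
          have hn'' : -((n + 1 : ℕ) : ℤ) + 1 = -(n : ℤ) := by push_cast; ring
          have := hadj _ hn (by rw [hn'']; exact hn')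
          rw [hn''] at this
          exact (ih hn').trans this.symm.reachable
      rcases Int.eq_nat_or_neg i with ⟨n, rfl | rfl⟩
      · exact hpos n hi
      · exact hneg n hi
  adj := by
    intro i hi j hj
    constructor
    · rintro ⟨k, -, -, ⟨h1, h2⟩ | ⟨h1, h2⟩⟩
      · left
        rw [h h1, h h2]
      · right
        rw [h h1, h h2]
    · rintro (rfl | rfl)
      · exact ⟨i, hi, hj, Or.inl ⟨rfl, rfl⟩⟩
      · exact ⟨j, hj, hi, Or.inr ⟨rfl, rfl⟩⟩

/-- Cutting off the vertices with negative index brings the robot forward. -/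
lemma wrun_le_Ici {γ : ℤ → V} {I : Set ℤ} (hI : I.OrdConnected) (h0 : (0 : ℤ) ∈ I)
    (A : ℕ → Dir) (n : ℕ) : wrun I γ A 0 n 0 ≤ wrun (Set.Ici 0) γ A 0 n 0 := by
  induction n with
  | zero => exact le_rfl
  | succ n ih =>
    simp only [wrun]
    have hi : wrun I γ A 0 n 0 ∈ I := wrun_mem 0 n h0
    have hj : wrun (Set.Ici 0) γ A 0 n 0 ∈ Set.Ici (0 : ℤ) := wrun_mem 0 n (Set.mem_Ici.2 le_rfl)
    generalize wrun I γ A 0 n 0 = i at *
    generalize wrun (Set.Ici 0) γ A 0 n 0 = j at *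
    generalize A (0 + n) = c
    have hj' : stp (Set.Ici 0) γ c j ∈ Set.Ici (0 : ℤ) := stp_mem hj
    rw [Set.mem_Ici] at hj hj'
    rcases lt_or_ge i 0 with hneg | hpos
    · have := stp_le I γ c i
      omega
    · refine le_trans ?_ (stp_mono (Set.Ici 0) γ c ih)
      have hle := stp_le I γ c i
      unfold stp
      by_cases e1 : γ (i + 1) = γ i + c.vec
      · rw [if_pos (⟨Set.mem_Ici.2 (by omega), e1⟩ : i + 1 ∈ Set.Ici (0 : ℤ) ∧ _)]
        split_ifs <;> omega
      · have n1 : ¬ (i + 1 ∈ I ∧ γ (i + 1) = γ i + c.vec) := fun h => e1 h.2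
        have n2 : ¬ (i + 1 ∈ Set.Ici (0 : ℤ) ∧ γ (i + 1) = γ i + c.vec) := fun h => e1 h.2
        rw [if_neg n1, if_neg n2]
        by_cases e2 : i - 1 ∈ Set.Ici (0 : ℤ) ∧ γ (i - 1) = γ i + c.vec
        · have : i - 1 ∈ I := hI.out h0 hi ⟨e2.1, by omega⟩
          rw [if_pos ⟨this, e2.2⟩, if_pos e2]
        · rw [if_neg e2]
          split_ifs <;> omega

/-- The step of the robot on the boustrophedon path cut at the vertex number `0`. -/
lemma bst_stp_Ici {L : ℤ} (hL : 1 ≤ L) (c : Dir) {i : ℤ} (hi : 0 ≤ i) :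
    (bst L (stp (Set.Ici 0) (bst L) c i)).1 = rf L c (bst L i).1 ∧
    ((bst L (stp (Set.Ici 0) (bst L) c i)).2 ≤ (bst L i).2 ∨
      ((bst L (stp (Set.Ici 0) (bst L) c i)).2 = (bst L i).2 + 1 ∧
        (((bst L i).2 % 2 = 0 ∧ (bst L i).1 = L) ∨ ((bst L i).2 % 2 = 1 ∧ (bst L i).1 = 0)))) := by
  by_cases hcut : i = 0 ∧ bst L (i - 1) = bst L i + c.vec
  · obtain ⟨rfl, h1⟩ := hcut
    have h2 := bst_pred hL (r := 0) (m := 0) le_rfl (by omega)
    have h3 := bst_succ hL (r := 0) (m := 0) le_rfl (by omega)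
    have h4 := bst_eval (L := L) (r := 0) (m := 0) le_rfl (by omega)
    simp only [mul_zero, add_zero] at h2 h3 h4
    rw [h2] at h1
    have h1' := add_left_cancel h1
    simp only [↓reduceIte] at h1'
    have hc : c.vec = (0, -1) := h1'.symm
    have hcS : c = .S := by
      cases c <;> simp [Dir.vec] at hc ⊢
    subst hcS
    have hst : stp (Set.Ici 0) (bst L) .S 0 = 0 := by
      unfold stp
      rw [if_neg, if_neg]
      · rintro ⟨h5, -⟩
        rw [Set.mem_Ici] at h5
        omega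
      · rintro ⟨-, h5⟩
        rw [h3, if_neg (by omega)] at h5
        have := add_left_cancel h5
        simp [Dir.vec] at this
    rw [hst]
    exact ⟨rfl, Or.inl le_rfl⟩
  · have heq : stp (Set.Ici 0) (bst L) c i = stp Set.univ (bst L) c i := by
      unfold stp
      simp only [Set.mem_univ, true_and, Set.mem_Ici]
      by_cases g1 : bst L (i + 1) = bst L i + c.vec
      · rw [if_pos ⟨by omega, g1⟩, if_pos g1]
      · rw [if_neg (fun h => g1 h.2), if_neg g1]
        by_cases g2 : bst L (i - 1) = bst L i + c.vec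
        · have : i ≠ 0 := fun h => hcut ⟨h, g2⟩
          rw [if_pos ⟨by omega, g2⟩, if_pos g2]
        · rw [if_neg (fun h => g2 h.2), if_neg g2]
    rw [heq]
    exact bst_stp hL c i

lemma bst_run_Ici {L : ℤ} (hL : 1 ≤ L) (A : ℕ → Dir) (n : ℕ) :
    (bst L (wrun (Set.Ici 0) (bst L) A 0 n 0)).1 = rw' L A n ∧
    (bst L (wrun (Set.Ici 0) (bst L) A 0 n 0)).2 ≤ cr L A n := by
  induction n with
  | zero =>
    have := bst_eval (L := L) (r := 0) (m := 0) le_rfl (by omega)
    simp only [mul_zero, add_zero] at this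
    simp [wrun, this, rw', cr]
  | succ n ih =>
    obtain ⟨h1, h2⟩ := ih
    simp only [wrun]
    have hj : wrun (Set.Ici 0) (bst L) A 0 n 0 ∈ Set.Ici (0 : ℤ) :=
      wrun_mem 0 n (Set.mem_Ici.2 le_rfl)
    obtain ⟨h3, h4⟩ := bst_stp_Ici hL (A (0 + n)) (Set.mem_Ici.1 hj)
    have hc := coupling (show 0 ≤ L - 1 by omega) A n
    rw [sub_add_cancel] at hc
    obtain ⟨c1, c2, c3, -⟩ := hc
    have hmono' : cr L A n ≤ cr L A (n + 1) := cr_mono L A (Nat.le_succ n)
    refine ⟨?_, ?_⟩
    · rw [h3, h1, zero_add]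
      rfl
    · rw [h1] at h4
      rcases h4 with h4 | ⟨h4, ⟨h5, h6⟩ | ⟨h5, h6⟩⟩ <;> omega

/-- If the robot reaches the vertex number `D` within `n` steps, then the reflected walk has made
at least `D / (L + 1)` crossings. -/
lemma crossings {L : ℤ} (hL : 1 ≤ L) {I : Set ℤ} (hI : I.OrdConnected) (h0 : (0 : ℤ) ∈ I)
    (A : ℕ → Dir) {n : ℕ} {D : ℤ} (h : wrun I (bst L) A 0 n 0 = D) :
    D / (L + 1) ≤ cr L A n := by
  have h1 := wrun_le_Ici (γ := bst L) hI h0 A n
  rw [h] at h1
  exact (Int.ediv_le_ediv (by omega) h1).trans (bst_run_Ici hL A n).2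

end Pool.Agent.BlindFSA
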