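import Pool.Agent.BlindPath.Defs

/-!
Eventually periodic algorithms on a path: the word maps are monotone, so fixed points and, more
generally, points moved to one side are barriers.
-/

namespace Pool.Agent.BlindFSA

open Pool.Agent.BlindPath

open Classical in
/-- The effect of the instruction `c` on the index of the robot on the path `γ`. -/
noncomputable def stp (I : Set ℤ) (γ : ℤ → V) (c : Dir) (i : ℤ) : ℤ :=
  if i + 1 ∈ I ∧ γ (i + 1) = γ i + c.vec then i + 1
  else if i - 1 ∈ I ∧ γ (i - 1) = γ i + c.vec then i - 1 else i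

lemma vec_add_self (c : Dir) : c.vec + c.vec ≠ 0 := by
  cases c <;> simp [Dir.vec]

lemma stp_le (I : Set ℤ) (γ : ℤ → V) (c : Dir) (i : ℤ) : stp I γ c i ≤ i + 1 := by
  unfold stp
  split_ifs <;> omega

lemma stp_ge (I : Set ℤ) (γ : ℤ → V) (c : Dir) (i : ℤ) : i - 1 ≤ stp I γ c i := by
  unfold stp
  split_ifs <;> omega

lemma stp_mono (I : Set ℤ) (γ : ℤ → V) (c : Dir) {i j : ℤ} (h : i ≤ j) :
    stp I γ c i ≤ stp I γ c j := by
  rcases eq_or_lt_of_le h with h | h
  · rw [h]
  · rcases eq_or_lt_of_le (show i + 1 ≤ j by omega) with h' | h'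
    · subst h'
      by_cases h1 : i + 1 ∈ I ∧ γ (i + 1) = γ i + c.vec
      · by_cases h2 : i + 1 + 1 ∈ I ∧ γ (i + 1 + 1) = γ (i + 1) + c.vec
        · unfold stp
          rw [if_pos h1, if_pos h2]
          omega
        · by_cases h3 : i + 1 - 1 ∈ I ∧ γ (i + 1 - 1) = γ (i + 1) + c.vec
          · exfalso
            have h4 := h3.2
            rw [show i + 1 - 1 = i by ring, h1.2, add_assoc] at h4
            exact vec_add_self c (by simpa using h4)
          · unfold stp
            rw [if_pos h1, if_neg h2, if_neg h3]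
      · have h5 : stp I γ c i ≤ i := by
          unfold stp
          rw [if_neg h1]
          split_ifs <;> omega
        have h6 := stp_ge I γ c (i + 1)
        omega
    · have h1 := stp_le I γ c i
      have h2 := stp_ge I γ c j
      omega

lemma stp_mem {I : Set ℤ} {γ : ℤ → V} {c : Dir} {i : ℤ} (hi : i ∈ I) : stp I γ c i ∈ I := by
  unfold stp
  split_ifs with h1 h2
  · exact h1.1
  · exact h2.1
  · exact hi

lemma step_stp {M : SimpleGraph V} {o : V} {I : Set ℤ} {γ : ℤ → V} (h : IsPath M o I γ)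
    {i : ℤ} (hi : i ∈ I) (c : Dir) : step M (γ i) c = γ (stp I γ c i) := by
  by_cases hadj : M.Adj (γ i) (γ i + c.vec)
  · have h1 : M.Reachable o (γ i) := (h.comp _).2 ⟨i, hi, rfl⟩
    have h2 : M.Reachable o (γ i + c.vec) := h1.trans hadj.reachable
    obtain ⟨j, hj, hj'⟩ := (h.comp _).1 h2
    rw [step, if_pos hadj]
    have h3 : M.Adj (γ i) (γ j) := by rw [hj']; exact hadj
    rcases (h.adj i hi j hj).1 h3 with h4 | h4
    · subst h4
      unfold stp
      rw [if_pos ⟨hj, hj'⟩, hj']
    · unfold stp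
      split_ifs with h5 h6
      · exact h5.2.symm
      · exact h6.2.symm
      · exact absurd ⟨by rw [h4]; simpa using hj, by rw [h4]; simpa [h4] using hj'⟩ h6
  · rw [step, if_neg hadj]
    unfold stp
    split_ifs with h5 h6
    · exact absurd (by rw [← h5.2]; exact (h.adj i hi _ h5.1).2 (Or.inl rfl)) hadj
    · exact absurd (by rw [← h6.2]; exact (h.adj i hi _ h6.1).2 (Or.inr (by ring))) hadj
    · rfl

/-- The index of the robot which starts at `x` at time `p` and executes `n` instructions. -/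
noncomputable def wrun (I : Set ℤ) (γ : ℤ → V) (A : ℕ → Dir) (p : ℕ) : ℕ → ℤ → ℤ
  | 0, x => x
  | n + 1, x => stp I γ (A (p + n)) (wrun I γ A p n x)

variable {I : Set ℤ} {γ : ℤ → V} {A : ℕ → Dir}

lemma wrun_mono (p n : ℕ) {x y : ℤ} (h : x ≤ y) : wrun I γ A p n x ≤ wrun I γ A p n y := by
  induction n with
  | zero => exact h
  | succ n ih => exact stp_mono _ _ _ ih

lemma wrun_le (p n : ℕ) (x : ℤ) : wrun I γ A p n x ≤ x + n := by
  induction n with
  | zero => simp [wrun]
  | succ n ih =>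
    have := stp_le I γ (A (p + n)) (wrun I γ A p n x)
    simp only [wrun]
    push_cast
    omega

lemma wrun_ge (p n : ℕ) (x : ℤ) : x - n ≤ wrun I γ A p n x := by
  induction n with
  | zero => simp [wrun]
  | succ n ih =>
    have := stp_ge I γ (A (p + n)) (wrun I γ A p n x)
    simp only [wrun]
    push_cast
    omega

lemma wrun_mem (p n : ℕ) {x : ℤ} (h : x ∈ I) : wrun I γ A p n x ∈ I := by
  induction n with
  | zero => exact h
  | succ n ih => exact stp_mem ih

lemma wrun_add (p m n : ℕ) (x : ℤ) :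
    wrun I γ A p (m + n) x = wrun I γ A (p + m) n (wrun I γ A p m x) := by
  induction n with
  | zero => rfl
  | succ n ih =>
    rw [← add_assoc]
    simp only [wrun]
    rw [ih, add_assoc]

lemma wrun_congr {p p' : ℕ} (h : ∀ n, A (p + n) = A (p' + n)) (n : ℕ) (x : ℤ) :
    wrun I γ A p n x = wrun I γ A p' n x := by
  induction n with
  | zero => rfl
  | succ n ih =>
    simp only [wrun]
    rw [ih, h]

lemma per_mul {p q : ℕ} (h : ∀ n, p ≤ n → A (n + q) = A n) (k n : ℕ) :
    A (p + k * q + n) = A (p + n) := by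
  induction k with
  | zero => simp
  | succ k ih =>
    rw [← ih, show p + (k + 1) * q + n = (p + k * q + n) + q by ring]
    exact h _ (by omega)

/-- A point which the periodic word does not move to the left is a barrier. -/
lemma barrier_left {p q : ℕ} (hq : 0 < q) (h : ∀ n, p ≤ n → A (n + q) = A n) {z : ℤ}
    (hz : z ≤ wrun I γ A 0 p 0) (hz' : z ≤ wrun I γ A p q z) (n : ℕ) :
    min (-(p : ℤ)) (z - q) ≤ wrun I γ A 0 n 0 := by
  have key : ∀ k : ℕ, z ≤ wrun I γ A 0 (p + k * q) 0 := by
    intro k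
    induction k with
    | zero => simpa using hz
    | succ k ih =>
      have h1 : p + (k + 1) * q = (p + k * q) + q := by ring
      rw [h1, wrun_add]
      have h2 : ∀ y, wrun I γ A (0 + (p + k * q)) q y = wrun I γ A p q y := fun y =>
        wrun_congr (fun n => by rw [zero_add]; exact per_mul h k n) q y
      rw [h2]
      exact hz'.trans (wrun_mono p q ih)
  rcases lt_or_ge n p with hn | hn
  · have := wrun_ge (I := I) (γ := γ) (A := A) 0 n 0
    have h3 := min_le_left (-(p : ℤ)) (z - q)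
    omega
  · obtain ⟨m, rfl⟩ := Nat.exists_eq_add_of_le hn
    have h4 : p + m = (p + (m / q) * q) + m % q := by
      have := Nat.div_add_mod m q
      rw [mul_comm] at this
      omega
    rw [h4, wrun_add]
    have h5 := wrun_ge (I := I) (γ := γ) (A := A) (0 + (p + m / q * q)) (m % q)
      (wrun I γ A 0 (p + m / q * q) 0)
    have h6 := key (m / q)
    have h7 := Nat.mod_lt m hq
    have h3 := min_le_right (-(p : ℤ)) (z - q)
    omega

/-- A point which the periodic word does not move to the right is a barrier. -/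
lemma barrier_right {p q : ℕ} (hq : 0 < q) (h : ∀ n, p ≤ n → A (n + q) = A n) {z : ℤ}
    (hz : wrun I γ A 0 p 0 ≤ z) (hz' : wrun I γ A p q z ≤ z) (n : ℕ) :
    wrun I γ A 0 n 0 ≤ max (p : ℤ) (z + q) := by
  have key : ∀ k : ℕ, wrun I γ A 0 (p + k * q) 0 ≤ z := by
    intro k
    induction k with
    | zero => simpa using hz
    | succ k ih =>
      have h1 : p + (k + 1) * q = (p + k * q) + q := by ring
      rw [h1, wrun_add]
      have h2 : ∀ y, wrun I γ A (0 + (p + k * q)) q y = wrun I γ A p q y := fun y =>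
        wrun_congr (fun n => by rw [zero_add]; exact per_mul h k n) q y
      rw [h2]
      exact (wrun_mono p q ih).trans hz'
  rcases lt_or_ge n p with hn | hn
  · have := wrun_le (I := I) (γ := γ) (A := A) 0 n 0
    have h3 := le_max_left (p : ℤ) (z + q)
    omega
  · obtain ⟨m, rfl⟩ := Nat.exists_eq_add_of_le hn
    have h4 : p + m = (p + (m / q) * q) + m % q := by
      have := Nat.div_add_mod m q
      rw [mul_comm] at this
      omega
    rw [h4, wrun_add]
    have h5 := wrun_le (I := I) (γ := γ) (A := A) (0 + (p + m / q * q)) (m % q)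
      (wrun I γ A 0 (p + m / q * q) 0)
    have h6 := key (m / q)
    have h7 := Nat.mod_lt m hq
    have h3 := le_max_right (p : ℤ) (z + q)
    omega

lemma pos_wrun {M : SimpleGraph V} {o : V} (h : IsPath M o I γ) (A : ℕ → Dir) (n : ℕ) :
    pos M o A n = γ (wrun I γ A 0 n 0) := by
  induction n with
  | zero => simp [pos, wrun, h.start]
  | succ n ih =>
    simp only [pos, wrun]
    rw [ih, step_stp h (wrun_mem 0 n h.zero_mem), zero_add]

/-- An eventually periodic algorithm misses everything far away on one of the two sides. -/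
theorem one_side {p q : ℕ} (hq : 0 < q) (hA : ∀ n, p ≤ n → A (n + q) = A n)
    {M : SimpleGraph V} {o : V} (h : IsPath M o I γ) :
    (∀ i ∈ I, (p : ℤ) + q < i → ¬ Solves A M o (γ i)) ∨
    (∀ i ∈ I, i < -((p : ℤ) + q) → ¬ Solves A M o (γ i)) := by
  have h1 := wrun_le (I := I) (γ := γ) (A := A) 0 p 0
  have h2 := wrun_ge (I := I) (γ := γ) (A := A) 0 p 0
  rcases le_total (wrun I γ A 0 p 0) (wrun I γ A p q (wrun I γ A 0 p 0)) with h3 | h3
  · right
    rintro i hi hlt ⟨n, hn⟩
    rw [pos_wrun h] at hn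
    have h4 := h.inj (wrun_mem 0 n h.zero_mem) hi hn
    have h5 := barrier_left hq hA le_rfl h3 n
    rw [h4] at h5
    rcases min_le_iff.1 h5 with h6 | h6 <;> omega
  · left
    rintro i hi hlt ⟨n, hn⟩
    rw [pos_wrun h] at hn
    have h4 := h.inj (wrun_mem 0 n h.zero_mem) hi hn
    have h5 := barrier_right hq hA le_rfl h3 n
    rw [h4] at h5
    rcases le_max_iff.1 h5 with h6 | h6 <;> omega

/-- The horizontal effect of an instruction. -/
def hor : Dir → ℤ
  | .E => 1
  | .N => 0
  | .W => -1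
  | .S => 0

lemma stp_run {s : ℤ} (hs : s = 1 ∨ s = -1) {i : ℤ} (h1 : γ (i + 1) = γ i + (s, 0))
    (h2 : γ i = γ (i - 1) + (s, 0)) (c : Dir) : stp Set.univ γ c i = i + s * hor c := by
  have h3 : γ (i - 1) = γ i + (-s, 0) := by
    rw [h2, add_assoc]
    simp
  unfold stp
  rw [h1, h3]
  rcases hs with rfl | rfl <;> cases c <;> simp [Dir.vec, hor, sub_eq_add_neg]

/-- On a long straight horizontal run a word acts as a translation. -/
lemma wrun_run {s : ℤ} (hs : s = 1 ∨ s = -1) {a b : ℤ}
    (h : ∀ i, a ≤ i → i < b → γ (i + 1) = γ i + (s, 0)) (p n : ℕ) {x : ℤ} (hx : a + n ≤ x)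
    (hx' : x + n ≤ b) :
    wrun Set.univ γ A p n x = x + s * ∑ m ∈ Finset.range n, hor (A (p + m)) := by
  induction n with
  | zero => simp [wrun]
  | succ n ih =>
    push_cast at hx hx'
    have h1 := ih (by omega) (by omega)
    have h2 := wrun_le (I := Set.univ) (γ := γ) (A := A) p n x
    have h3 := wrun_ge (I := Set.univ) (γ := γ) (A := A) p n x
    simp only [wrun]
    rw [stp_run hs (h _ (by omega) (by omega)) ?_, h1, Finset.sum_range_succ]
    · ring
    · have := h (wrun Set.univ γ A p n x - 1) (by omega) (by omega)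
      rwa [sub_add_cancel] at this

/-- Paths with arbitrarily long horizontal runs of both orientations on both sides. -/
structure Snake (γ : ℤ → V) : Prop where
  right : ∀ (s : ℤ), (s = 1 ∨ s = -1) → ∀ N : ℕ, ∃ a : ℤ, (N : ℤ) ≤ a ∧
    ∀ i, a ≤ i → i < a + 2 * N → γ (i + 1) = γ i + (s, 0)
  left : ∀ (s : ℤ), (s = 1 ∨ s = -1) → ∀ N : ℕ, ∃ a : ℤ, a + 2 * (N : ℤ) ≤ -(N : ℤ) ∧
    ∀ i, a ≤ i → i < a + 2 * N → γ (i + 1) = γ i + (s, 0)

/-- On a snake every eventually periodic algorithm visits only finitely many vertices. -/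
theorem snake_finite (hγ : Snake γ) {M : SimpleGraph V} {o : V} (h : IsPath M o Set.univ γ)
    {p q : ℕ} (hq : 0 < q) (hA : ∀ n, p ≤ n → A (n + q) = A n) :
    {v | Solves A M o v}.Finite := by
  have h1 := wrun_le (I := Set.univ) (γ := γ) (A := A) 0 p 0
  have h2 := wrun_ge (I := Set.univ) (γ := γ) (A := A) 0 p 0
  set δ := ∑ m ∈ Finset.range q, hor (A (p + m)) with hδ
  have hl : ∃ z, z ≤ wrun Set.univ γ A 0 p 0 ∧ z ≤ wrun Set.univ γ A p q z := by
    obtain ⟨s, hs, hsd⟩ : ∃ s : ℤ, (s = 1 ∨ s = -1) ∧ 0 ≤ s * δ := by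
      rcases le_total 0 δ with hd | hd
      · exact ⟨1, Or.inl rfl, by omega⟩
      · exact ⟨-1, Or.inr rfl, by omega⟩
    obtain ⟨a, ha, hrun⟩ := hγ.left s hs (p + q)
    push_cast at ha hrun
    refine ⟨a + (p + q), by omega, ?_⟩
    rw [wrun_run hs hrun p q (by omega) (by omega), ← hδ]
    omega
  have hr : ∃ z, wrun Set.univ γ A 0 p 0 ≤ z ∧ wrun Set.univ γ A p q z ≤ z := by
    obtain ⟨s, hs, hsd⟩ : ∃ s : ℤ, (s = 1 ∨ s = -1) ∧ s * δ ≤ 0 := by
      rcases le_total δ 0 with hd | hd
      · exact ⟨1, Or.inl rfl, by omega⟩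
      · exact ⟨-1, Or.inr rfl, by omega⟩
    obtain ⟨a, ha, hrun⟩ := hγ.right s hs (p + q)
    push_cast at ha hrun
    refine ⟨a + (p + q), by omega, ?_⟩
    rw [wrun_run hs hrun p q (by omega) (by omega), ← hδ]
    omega
  obtain ⟨z, hz, hz'⟩ := hl
  obtain ⟨w, hw, hw'⟩ := hr
  refine ((Set.finite_Icc (min (-(p : ℤ)) (z - q)) (max (p : ℤ) (w + q))).image γ).subset ?_
  rintro v ⟨n, hn⟩
  rw [pos_wrun h] at hn
  exact ⟨_, ⟨barrier_left hq hA hz hz' n, barrier_right hq hA hw hw' n⟩, hn⟩

end Pool.Agent.BlindFSA
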